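import Pool.Agent.Work.MP_8b6acb_cap_helper63.QPIB

/-!
# (Q^pi), third part: conclusion
-/

namespace R5.QP

open Finset

variable {α : Type} [DecidableEq α]

theorem erase_sdiff_eq (U Z : Finset α) (x : α) : (U.erase x) \ Z = U \ insert x Z := by
  ext y; simp only [mem_erase, mem_sdiff, mem_insert, not_or]; tauto

theorem erase_sdiff_eq' (U W : Finset α) (x : α) : (U.erase x) \ W = (U \ W).erase x := by
  ext y; simp only [mem_erase, mem_sdiff]; tauto

theorem dual_erase (τ : Finset α → Lab) (U : Finset α) (x : α) :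
    dual τ (U.erase x) = up (dual τ U) x := by
  funext Z
  unfold dual up
  rw [erase_sdiff_eq]

/-- The backward recursion `bet` agrees with `B1`. -/
theorem bet_eq {τ : Finset α → Lab} (π : Finset α → ℝ) {U : Finset α} (h : τ U = Lab.B)
    {W : Finset α} (hW : W ⊆ U) : bet τ π U W = B1 τ U π W := by
  induction U using Finset.strongInduction generalizing W with
  | H U ih =>
  have hσ : dual τ U ∅ = Lab.A := by
    unfold dual; rw [sdiff_empty, flip_eq_A]; exact h
  unfold B1
  rw [bet_B π W h, A1_first _ hσ]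
  congr 2
  refine Finset.sum_congr rfl fun x hx => ?_
  have hx' := mem_sdiff.1 hx
  have hσx : dual τ U {x} = (τ (U.erase x)).flip := by
    unfold dual; rw [sdiff_singleton_eq_erase]
  rw [hσx]
  cases hc : τ (U.erase x) with
  | A =>
    rw [bet_A π W hc]
    rw [if_neg (by simp [Lab.flip])]
    rw [A1_zero_of_bot]
    have : up (dual τ U) x ∅ = dual τ U {x} := by simp [up]
    rw [this, hσx, hc]
    simp [Lab.flip]
  | X =>
    rw [bet_X π W hc]
    rw [if_pos (by simp [Lab.flip])]
    rw [sdiff_singleton_eq_erase]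
  | B =>
    rw [if_neg (by simp [Lab.flip])]
    have hWe : W ⊆ U.erase x := subset_erase.2 ⟨hW, hx'.2⟩
    rw [ih _ (erase_ssubset hx'.1) hc hWe]
    unfold B1
    rw [dual_erase, erase_sdiff_eq']
    congr 1
    funext Z
    rw [erase_sdiff_eq]

/-- Splitting off the last step. -/
theorem top_split (c : Finset α → Lab) {V : Finset α} (g : Finset α → ℝ) :
    ∑ W ∈ V.powerset with c W ≠ Lab.A, P1 c V W * g W =
      (∑ x ∈ V, ∑ W ∈ (V.erase x).powerset with c W ≠ Lab.A, P1 c (V.erase x) W * g W) /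
        (V.card : ℝ) + (if c V = Lab.A then 0 else fwb c V * g V) := by
  rw [← P1_avg c V (fun W _ => g W)]
  have h1 : ∀ W ∈ V.powerset.filter (fun W => c W ≠ Lab.A),
      P1 c V W * ((∑ _x ∈ V \ W, g W) / ((V \ W).card : ℝ)) =
        P1 c V W * g W - (if W = V then P1 c V W * g W else 0) := by
    intro W hW
    have hWV := mem_powerset.1 (mem_filter.1 hW).1
    rw [sum_const, nsmul_eq_mul]
    by_cases h : W = V
    · subst h; simp
    · have hpos : (0 : ℝ) < ((V \ W).card : ℝ) := by
        have : (V \ W).Nonempty := by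
          rw [sdiff_nonempty]; intro h2; exact h (Subset.antisymm hWV h2)
        exact_mod_cast this.card_pos
      rw [if_neg h]
      field_simp
      ring
  rw [sum_congr rfl h1, sum_sub_distrib, sum_ite_eq']
  by_cases hA : c V = Lab.A
  · rw [if_pos hA, if_neg (by simp [hA])]; ring
  · rw [if_neg hA, if_pos (by simp [hA]), P1_self]; ring

theorem mass {c : Finset α → Lab} (hc : c ∅ = Lab.A) (V : Finset α) :
    ∑ W ∈ V.powerset with c W ≠ Lab.A, P1 c V W = 1 - fw c V := by
  induction V using Finset.strongInduction with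
  | H V ih =>
  by_cases hV : V = ∅
  · subst hV
    have : (∅ : Finset α).powerset.filter (fun W => c W ≠ Lab.A) = ∅ := by
      ext W
      simp only [powerset_empty, mem_filter, mem_singleton, notMem_empty, iff_false, not_and,
        not_not]
      rintro rfl; exact hc
    rw [this, sum_empty, fw_empty, if_pos hc]; ring
  · have hne : V.Nonempty := nonempty_iff_ne_empty.2 hV
    have hm : (0 : ℝ) < (V.card : ℝ) := by exact_mod_cast hne.card_pos
    have h := top_split c (V := V) (fun _ => 1)
    simp only [mul_one] at h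
    rw [h, sum_congr rfl fun x hx => ih _ (erase_ssubset hx), sum_sub_distrib, sum_const,
      nsmul_eq_mul, mul_one, sub_div, div_self hm.ne', fw_rec hV]
    have : (∑ x ∈ V, fw c (V.erase x)) / (V.card : ℝ) = fwb c V := rfl
    rw [this]
    split_ifs <;> ring

theorem sum_bF {c : Finset α → Lab} (π : Finset α → ℝ) (hc : c ∅ = Lab.A) (V : Finset α) :
    ∑ W ∈ V.powerset with c W ≠ Lab.A, P1 c V W * bF c π V W =
      (V.card : ℝ) + 1 - A1 c π V := by
  induction V using Finset.strongInduction with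
  | H V ih =>
  by_cases hV : V = ∅
  · subst hV
    have : (∅ : Finset α).powerset.filter (fun W => c W ≠ Lab.A) = ∅ := by
      ext W
      simp only [powerset_empty, mem_filter, mem_singleton, notMem_empty, iff_false, not_and,
        not_not]
      rintro rfl; exact hc
    rw [this, sum_empty, A1_empty π hc]; simp
  · have hne : V.Nonempty := nonempty_iff_ne_empty.2 hV
    have hm : (0 : ℝ) < (V.card : ℝ) := by exact_mod_cast hne.card_pos
    rw [top_split c (V := V) (fun W => bF c π V W)]
    have e1 : ∀ x ∈ V, ∑ W ∈ (V.erase x).powerset with c W ≠ Lab.A,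
        P1 c (V.erase x) W * bF c π V W =
        ((V.card : ℝ) + 1) - A1 c π (V.erase x) - fw c (V.erase x) := by
      intro x hx
      have e2 : ∀ W ∈ (V.erase x).powerset.filter (fun W => c W ≠ Lab.A),
          P1 c (V.erase x) W * bF c π V W =
          P1 c (V.erase x) W * bF c π (V.erase x) W + P1 c (V.erase x) W := by
        intro W _
        rw [bF_erase c π W hx]; ring
      rw [sum_congr rfl e2, sum_add_distrib, ih _ (erase_ssubset hx), mass hc,
        card_erase_of_mem hx, Nat.cast_sub hne.card_pos]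
      push_cast; ring
    rw [sum_congr rfl e1, sum_sub_distrib, sum_sub_distrib, sum_const, nsmul_eq_mul,
      A1_rec c π hV]
    have e3 : (∑ x ∈ V, fw c (V.erase x)) / (V.card : ℝ) = fwb c V := rfl
    rw [sub_div, sub_div, e3]
    have e4 : (V.card : ℝ) * ((V.card : ℝ) + 1) / (V.card : ℝ) = (V.card : ℝ) + 1 := by
      field_simp
    rw [e4]
    have e5 : (if c V = Lab.A then 0 else fwb c V * bF c π V V) = fwb c V - ph c π V := by
      unfold bF aF
      cases hcV : c V with
      | A => rw [ph_A π hcV, fw_rec hV, if_pos hcV]; simp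
      | X => rw [ph_X π hcV]; simp; ring
      | B => rw [ph_B π hcV]; simp
    rw [e5]; ring

theorem YF_ne {c : Finset α → Lab} (π : Finset α → ℝ) (hc : c ∅ = Lab.A) {V : Finset α}
    (h : c V ≠ Lab.B) : YF c π V = aL c π V - A1 c π V := by
  cases hcV : c V with
  | A =>
    have h1 : YF c π V = ∑ W ∈ V.powerset with c W ≠ Lab.A, P1 c V W * bF c π V W := by
      unfold YF
      refine sum_congr rfl fun W _ => ?_
      unfold dF; rw [bet_A π W hcV]; ring
    rw [h1, sum_bF π hc]
    unfold aL; rw [hcV]; simp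
  | X =>
    have hne : V ≠ ∅ := by
      rintro rfl; rw [hc] at hcV; exact absurd hcV (by decide)
    have h1 : YF c π V = ∑ W ∈ V.powerset with c W ≠ Lab.A,
        (P1 c V W * bF c π V W - P1 c V W * (1 - π V)) := by
      unfold YF
      refine sum_congr rfl fun W _ => ?_
      unfold dF; rw [bet_X π W hcV]; ring
    rw [h1, sum_sub_distrib, sum_bF π hc, ← sum_mul, mass hc, fw_rec hne, if_neg (by
      rw [hcV]; decide)]
    unfold aL; rw [hcV]; simp; ring
  | B => exact absurd hcV h

theorem YF_eq {c : Finset α → Lab} (π : Finset α → ℝ) (hc : c ∅ = Lab.A) (U : Finset α) :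
    YF c π U = Lst c (aL c π) U - A1 c π U := by
  induction U using Finset.strongInduction with
  | H U ih =>
  by_cases h : c U = Lab.B
  · have hne : U ≠ ∅ := by
      rintro rfl; rw [hc] at h; exact absurd h (by decide)
    rw [YF_B π h, Lst_B _ h, sum_congr rfl fun x hx => ih _ (erase_ssubset hx),
      sum_sub_distrib, A1_rec c π hne, ph_B π h]
    ring
  · rw [YF_ne π hc h, Lst_ne _ h]

theorem Lst_sq {c : Finset α → Lab} {π : Finset α → ℝ} (hc : c ∅ = Lab.A)
    (hp0 : ∀ V, 0 ≤ π V) (U : Finset α) :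
    Lst c (fun V => YF c π V ^ 2 / aL c π V) U =
      Lst c (aL c π) U - 2 * A1 c π U + Lst c (fun V => A1 c π V ^ 2 / aL c π V) U := by
  induction U using Finset.strongInduction with
  | H U ih =>
  by_cases h : c U = Lab.B
  · have hne : U ≠ ∅ := by
      rintro rfl; rw [hc] at h; exact absurd h (by decide)
    rw [Lst_B _ h, Lst_B _ h, Lst_B _ h, sum_congr rfl fun x hx => ih _ (erase_ssubset hx),
      sum_add_distrib, sum_sub_distrib, A1_rec c π hne, ph_B π h, ← mul_sum]
    ring
  · rw [Lst_ne _ h, Lst_ne _ h, Lst_ne _ h, YF_ne π hc h]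
    have := aL_pos c π hp0 hc U
    field_simp
    ring

/-- Law of the last set without label `B`. -/
theorem Lst_explicit {τ : Finset α → Lab} (h0 : τ ∅ = Lab.A) {D : Finset α} (hD : τ D = Lab.B)
    (f : Finset α → ℝ) :
    Lst τ f D = ∑ V ∈ D.powerset, if τ V = Lab.B then 0 else
      bwb τ D V / (D.card.choose V.card : ℝ) * f V := by
  have hσ : dual τ D ∅ = Lab.A := by
    unfold dual; rw [sdiff_empty, flip_eq_A]; exact hD
  have hσD : dual τ D D ≠ Lab.A := by
    unfold dual; rw [sdiff_self, bot_eq_empty, h0]; simp [Lab.flip]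
  have key := stopping_eq (dual τ D) hσ D hσD (fun Z => Lst τ f (D \ Z)) (by
    intro Z hZ hA
    have hB : τ (D \ Z) = Lab.B := by
      unfold dual at hA; rwa [flip_eq_A] at hA
    have hcard : ((D.card - Z.card : ℕ) : ℝ) = ((D \ Z).card : ℝ) := by
      rw [card_sdiff_of_subset hZ.1]
    rw [hcard, Lst_B f hB]
    congr 1
    refine sum_congr rfl fun x _ => ?_
    rw [sdiff_erase_eq])
  simp only [sdiff_empty] at key
  rw [← key, sum_filter, ← sum_powerset_compl]
  refine sum_congr rfl fun V hV => ?_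
  have hVD := mem_powerset.1 hV
  rw [dual_apply hVD, Finset.sdiff_sdiff_eq_self hVD]
  by_cases hB : τ V = Lab.B
  · rw [if_pos hB, if_neg]
    simp [hB, Lab.flip]
  · rw [if_neg hB, if_pos (by rw [Ne, flip_eq_A]; exact hB), Lst_ne f hB]
    unfold P1
    rw [fwb_dual, card_sdiff_of_subset hVD, Nat.choose_symm (card_le_card hVD)]

theorem sum_B1 {τ : Finset α → Lab} (π : Finset α → ℝ) (h0 : τ ∅ = Lab.A) {D : Finset α}
    (hD : τ D = Lab.B) :
    ∑ W ∈ D.powerset with τ W ≠ Lab.A, P1 τ D W * B1 τ D π W = B1 τ D π ∅ := by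
  refine stopping_eq τ h0 D (by rw [hD]; decide) (fun W => B1 τ D π W) ?_
  intro V hV hA
  have hne : D \ V ≠ ∅ := by
    rw [Ne, sdiff_eq_empty_iff_subset]; exact hV.2
  have hcard : ((D.card - V.card : ℕ) : ℝ) = ((D \ V).card : ℝ) := by
    rw [card_sdiff_of_subset hV.1]
  rw [hcard]
  unfold B1
  rw [A1_rec _ _ hne, ph_B _ (by rw [dual_apply hV.1, hA]; rfl), zero_add]
  congr 1
  refine sum_congr rfl fun x _ => ?_
  rw [sdiff_erase_eq]

/-- **(Q^pi)** in exit form. -/
theorem qpi_exit {τ : Finset α → Lab} {π : Finset α → ℝ} {D : Finset α} (h0 : τ ∅ = Lab.A)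
    (hD : τ D = Lab.B) (hp0 : ∀ V, 0 ≤ π V) (hp1 : ∀ V, π V ≤ 1) :
    (∑ V ∈ D.powerset, if τ V = Lab.B then 0 else
      bwb τ D V / (D.card.choose V.card : ℝ) * (A1 τ π V ^ 2 / aL τ π V)) +
    (∑ W ∈ D.powerset with τ W ≠ Lab.A, P1 τ D W * (B1 τ D π W ^ 2 / bF τ π D W)) ≤
      (A1 τ π D + B1 τ D π ∅) ^ 2 / ((D.card : ℝ) + 1) := by
  have hmain := main_ineq (p := π) h0 hp0 hp1 D
  rw [← Lst_explicit h0 hD]
  rw [Lst_sq h0 hp0] at hmain
  have hbpos : ∀ W ∈ D.powerset.filter (fun W => τ W ≠ Lab.A), 0 < bF τ π D W := by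
    intro W hW
    have hWD := mem_powerset.1 (mem_filter.1 hW).1
    unfold bF aF
    by_cases hWe : W = D
    · subst hWe; rw [hD]; simp
    · have hlt : W.card < D.card :=
        card_lt_card ⟨hWD, fun h => hWe (Subset.antisymm hWD h)⟩
      have h1 : (W.card : ℝ) + 1 ≤ (D.card : ℝ) := by exact_mod_cast hlt
      have h2 : (if τ W = Lab.X then π W else 0) ≤ 1 := by
        split_ifs; exacts [hp1 W, zero_le_one]
      linarith
  have hbet : ∀ W ∈ D.powerset.filter (fun W => τ W ≠ Lab.A), bet τ π D W = B1 τ D π W :=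
    fun W hW => bet_eq π hD (mem_powerset.1 (mem_filter.1 hW).1)
  have hR : RF τ π D = ((D.card : ℝ) + 1 - A1 τ π D) - 2 * B1 τ D π ∅ +
      ∑ W ∈ D.powerset with τ W ≠ Lab.A, P1 τ D W * (B1 τ D π W ^ 2 / bF τ π D W) := by
    have e1 : ∀ W ∈ D.powerset.filter (fun W => τ W ≠ Lab.A),
        P1 τ D W * (dF τ π D W ^ 2 / bF τ π D W) =
        P1 τ D W * bF τ π D W - 2 * (P1 τ D W * B1 τ D π W) +
          P1 τ D W * (B1 τ D π W ^ 2 / bF τ π D W) := by
      intro W hW
      unfold dF
      rw [hbet W hW]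
      have := hbpos W hW
      field_simp
      ring
    unfold RF
    rw [sum_congr rfl e1, sum_add_distrib, sum_sub_distrib, ← mul_sum, sum_bF π h0,
      sum_B1 π h0 hD]
  have hY : YF τ π D = (D.card : ℝ) + 1 - A1 τ π D - B1 τ D π ∅ := by
    have e1 : ∀ W ∈ D.powerset.filter (fun W => τ W ≠ Lab.A),
        P1 τ D W * dF τ π D W = P1 τ D W * bF τ π D W - P1 τ D W * B1 τ D π W := by
      intro W hW
      unfold dF
      rw [hbet W hW]; ring
    unfold YF
    rw [sum_congr rfl e1, sum_sub_distrib, sum_bF π h0, sum_B1 π h0 hD]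
  have hY2 := YF_eq π h0 D
  rw [hR] at hmain
  set M : ℝ := (D.card : ℝ) + 1 with hM
  have hMpos : 0 < M := by positivity
  set S := A1 τ π D + B1 τ D π ∅ with hS
  have hYS : YF τ π D = M - S := by rw [hY, hS]; ring
  rw [hYS] at hmain hY2
  have hsq : (M - S) ^ 2 / M = S ^ 2 / M + M - 2 * S := by
    field_simp; ring
  rw [hsq] at hmain
  linarith

end R5.QP
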