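import Pool.Agent.Work.MP_8b6acb_cap.Basic

/-!
# The quadratic inequality (Q^pi)

First and last exits of uniform chains in a labelled cube.
-/

namespace R5.QP

open Finset

variable {α : Type} [DecidableEq α]

theorem fwb_empty (c : Finset α → Lab) : fwb c ∅ = 0 := by simp [fwb]

/-- Probability that the first set without label `A` of a uniform chain `∅ → U` is `W`. -/
noncomputable def P1 (c : Finset α → Lab) (U W : Finset α) : ℝ :=
  fwb c W / (U.card.choose W.card : ℝ)

lemma P1_nonneg (c : Finset α → Lab) (U W : Finset α) : 0 ≤ P1 c U W :=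
  div_nonneg (fwb_nonneg _ _) (by positivity)

lemma P1_self (c : Finset α → Lab) (U : Finset α) : P1 c U U = fwb c U := by simp [P1]

lemma P1_empty (c : Finset α → Lab) (U : Finset α) : P1 c U ∅ = 0 := by
  simp [P1, fwb_empty]

lemma P1_erase (c : Finset α → Lab) {U W : Finset α} {x : α} (hx : x ∈ U) (hW : W ⊆ U.erase x) :
    P1 c U W / ((U \ W).card : ℝ) = P1 c (U.erase x) W / (U.card : ℝ) := by
  have hxW : x ∉ W := fun h => by simpa using hW h
  have hWU : W ⊆ U := hW.trans (Finset.erase_subset _ _)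
  have hlt : W.card < U.card := Finset.card_lt_card ⟨hWU, fun h => hxW (h hx)⟩
  obtain ⟨m, hm⟩ : ∃ m, U.card = m + 1 := ⟨U.card - 1, by omega⟩
  have hk : W.card ≤ m := by omega
  have h1 : (U \ W).card = m + 1 - W.card := by
    rw [Finset.card_sdiff_of_subset hWU, hm]
  have h2 : (U.erase x).card = m := by rw [Finset.card_erase_of_mem hx, hm]; rfl
  unfold P1
  rw [h1, h2, hm]
  have h3 : (m.choose W.card : ℝ) * ((m : ℝ) + 1) =
      ((m + 1).choose W.card : ℝ) * ((m + 1 - W.card : ℕ) : ℝ) := by
    have := Nat.choose_mul_succ_eq m W.card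
    exact_mod_cast this
  have h4 : (0 : ℝ) < (m.choose W.card : ℝ) := by exact_mod_cast Nat.choose_pos hk
  have h5 : (0 : ℝ) < ((m + 1).choose W.card : ℝ) := by
    exact_mod_cast Nat.choose_pos (by omega)
  have h6 : (0 : ℝ) < ((m + 1 - W.card : ℕ) : ℝ) := by
    exact_mod_cast (by omega : 0 < m + 1 - W.card)
  rw [div_div, div_div, ← h3]
  push_cast
  ring

/-! ### Exchange of sums -/

lemma sum_pairs (c : Finset α → Lab) (U : Finset α) (F : Finset α → α → ℝ) :
    ∑ W ∈ U.powerset with c W ≠ Lab.A, ∑ x ∈ U \ W, F W x =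
      ∑ x ∈ U, ∑ W ∈ (U.erase x).powerset with c W ≠ Lab.A, F W x := by
  refine Finset.sum_comm' ?_
  intro W x
  simp only [Finset.mem_filter, Finset.mem_powerset, Finset.mem_sdiff, Finset.subset_erase]
  tauto

/-- The key averaging identity over the last element. -/
lemma P1_avg (c : Finset α → Lab) (U : Finset α) (F : Finset α → α → ℝ) :
    ∑ W ∈ U.powerset with c W ≠ Lab.A,
        P1 c U W * ((∑ x ∈ U \ W, F W x) / ((U \ W).card : ℝ)) =
      (∑ x ∈ U, ∑ W ∈ (U.erase x).powerset with c W ≠ Lab.A, P1 c (U.erase x) W * F W x) /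
        (U.card : ℝ) := by
  have h1 : ∀ W ∈ U.powerset.filter (fun W => c W ≠ Lab.A),
      P1 c U W * ((∑ x ∈ U \ W, F W x) / ((U \ W).card : ℝ)) =
        ∑ x ∈ U \ W, P1 c U W / ((U \ W).card : ℝ) * F W x := by
    intro W _
    rw [← Finset.mul_sum]
    ring
  rw [Finset.sum_congr rfl h1, sum_pairs, Finset.sum_div]
  refine Finset.sum_congr rfl fun x hx => ?_
  rw [Finset.sum_div]
  refine Finset.sum_congr rfl fun W hW => ?_
  rw [P1_erase c hx (Finset.mem_powerset.1 (Finset.mem_filter.1 hW).1)]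
  ring

/-! ### Levels -/

lemma sum_levels (U : Finset α) (j : ℕ) (F : Finset α → α → ℝ) :
    ∑ W ∈ U.powersetCard (j + 1), ∑ x ∈ W, F (W.erase x) x =
      ∑ V ∈ U.powersetCard j, ∑ x ∈ U \ V, F V x := by
  rw [Finset.sum_sigma', Finset.sum_sigma']
  refine Finset.sum_bij' (fun p _ => ⟨p.1.erase p.2, p.2⟩) (fun p _ => ⟨insert p.2 p.1, p.2⟩)
    ?_ ?_ ?_ ?_ ?_
  · rintro ⟨W, x⟩ h
    simp only [Finset.mem_sigma, Finset.mem_powersetCard, Finset.mem_sdiff] at h ⊢
    refine ⟨⟨(Finset.erase_subset _ _).trans h.1.1, ?_⟩, h.1.1 h.2, by simp⟩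
    rw [Finset.card_erase_of_mem h.2, h.1.2]; rfl
  · rintro ⟨V, x⟩ h
    simp only [Finset.mem_sigma, Finset.mem_powersetCard, Finset.mem_sdiff] at h ⊢
    refine ⟨⟨Finset.insert_subset h.2.1 h.1.1, ?_⟩, by simp⟩
    rw [Finset.card_insert_of_notMem h.2.2, h.1.2]
  · rintro ⟨W, x⟩ h
    simp only [Finset.mem_sigma] at h
    simp only [Finset.insert_erase h.2]
  · rintro ⟨V, x⟩ h
    simp only [Finset.mem_sigma, Finset.mem_sdiff] at h
    simp only [Finset.erase_insert h.2.2]
  · rintro ⟨W, x⟩ h
    rfl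

lemma level_step (c : Finset α → Lab) (U : Finset α) (j : ℕ)
    (Q : Finset α → ℝ) :
    ∑ W ∈ U.powersetCard (j + 1), P1 c U W * Q W =
      ∑ V ∈ U.powersetCard j, fw c V / (U.card.choose j : ℝ) *
        ((∑ x ∈ U \ V, Q (insert x V)) / ((U.card - j : ℕ) : ℝ)) := by
  have h1 : ∀ W ∈ U.powersetCard (j + 1), P1 c U W * Q W =
      ∑ x ∈ W, fw c (W.erase x) / ((U.card.choose j : ℝ) * ((U.card - j : ℕ) : ℝ)) *
        Q (insert x (W.erase x)) := by
    intro W hW
    have hc := (Finset.mem_powersetCard.1 hW).2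
    have h2 : ((U.card.choose (j + 1) : ℕ) : ℝ) * ((j : ℝ) + 1) =
        (U.card.choose j : ℝ) * ((U.card - j : ℕ) : ℝ) := by
      have := Nat.choose_succ_right_eq U.card j
      exact_mod_cast this
    have h3 : ∑ x ∈ W, fw c (W.erase x) / ((U.card.choose j : ℝ) * ((U.card - j : ℕ) : ℝ)) *
        Q (insert x (W.erase x)) =
        ∑ x ∈ W, fw c (W.erase x) / ((U.card.choose j : ℝ) * ((U.card - j : ℕ) : ℝ)) * Q W :=
      Finset.sum_congr rfl fun x hx => by rw [Finset.insert_erase hx]
    rw [h3, ← Finset.sum_mul, ← Finset.sum_div, ← h2]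
    unfold P1 fwb
    rw [hc, div_div]
    push_cast
    ring
  rw [Finset.sum_congr rfl h1,
    sum_levels U j (fun V x => fw c V / ((U.card.choose j : ℝ) * ((U.card - j : ℕ) : ℝ)) *
      Q (insert x V))]
  refine Finset.sum_congr rfl fun V _ => ?_
  rw [← Finset.mul_sum]
  rw [div_mul_eq_mul_div, div_mul_div_comm]

/-- Optional stopping for supermartingales: first set without label `A`. -/
lemma stopping_le (c : Finset α → Lab) (hc : c ∅ = Lab.A) (U : Finset α) (Q : Finset α → ℝ)
    (hQ0 : ∀ V ⊆ U, 0 ≤ Q V)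
    (hQ : ∀ V ⊂ U, (∑ x ∈ U \ V, Q (insert x V)) / ((U.card - V.card : ℕ) : ℝ) ≤ Q V) :
    ∑ W ∈ U.powerset with c W ≠ Lab.A, P1 c U W * Q W ≤ Q ∅ := by
  have key : ∀ j ≤ U.card,
      (∑ i ∈ Finset.range (j + 1), ∑ W ∈ U.powersetCard i,
        if c W ≠ Lab.A then P1 c U W * Q W else 0) +
        ∑ V ∈ U.powersetCard j, fw c V / (U.card.choose j : ℝ) * Q V ≤ Q ∅ := by
    intro j
    induction j with
    | zero =>
      intro _
      simp [hc, fw_empty]
    | succ j ih =>
      intro hj
      have ih' := ih (by omega)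
      rw [Finset.sum_range_succ]
      have e1 : (∑ W ∈ U.powersetCard (j + 1), if c W ≠ Lab.A then P1 c U W * Q W else 0) +
          ∑ V ∈ U.powersetCard (j + 1), fw c V / (U.card.choose (j + 1) : ℝ) * Q V =
          ∑ W ∈ U.powersetCard (j + 1), P1 c U W * Q W := by
        rw [← Finset.sum_add_distrib]
        refine Finset.sum_congr rfl fun W hW => ?_
        have hcard := (Finset.mem_powersetCard.1 hW).2
        have hne : W.Nonempty := by
          rw [← Finset.card_pos, hcard]; omega
        rw [fw_rec (nonempty_iff_ne_empty.1 hne)]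
        unfold P1
        rw [hcard]
        by_cases h : c W = Lab.A
        · simp [h]
        · simp [h]
      have e2 := level_step c U j Q
      have e3 : ∑ V ∈ U.powersetCard j, fw c V / (U.card.choose j : ℝ) *
          ((∑ x ∈ U \ V, Q (insert x V)) / ((U.card - j : ℕ) : ℝ)) ≤
          ∑ V ∈ U.powersetCard j, fw c V / (U.card.choose j : ℝ) * Q V := by
        refine Finset.sum_le_sum fun V hV => ?_
        obtain ⟨hVU, hVc⟩ := Finset.mem_powersetCard.1 hV
        refine mul_le_mul_of_nonneg_left ?_ (div_nonneg (fw_nonneg _ _) (by positivity))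
        have hss : V ⊂ U := by
          refine ⟨hVU, fun h => ?_⟩
          have := Finset.card_le_card h
          omega
        have := hQ V hss
        rwa [hVc] at this
      linarith
  have hfin := key U.card le_rfl
  have h0 : 0 ≤ ∑ V ∈ U.powersetCard U.card, fw c V / (U.card.choose U.card : ℝ) * Q V := by
    refine Finset.sum_nonneg fun V hV => ?_
    exact mul_nonneg (div_nonneg (fw_nonneg _ _) (by positivity))
      (hQ0 V (Finset.mem_powersetCard.1 hV).1)
  have h1 : ∑ W ∈ U.powerset with c W ≠ Lab.A, P1 c U W * Q W =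
      ∑ i ∈ Finset.range (U.card + 1), ∑ W ∈ U.powersetCard i,
        if c W ≠ Lab.A then P1 c U W * Q W else 0 := by
    rw [Finset.sum_filter, Finset.sum_powerset]
  rw [h1]
  linarith

/-- Optional stopping, exact form, for complete families. -/
lemma stopping_eq (c : Finset α → Lab) (hc : c ∅ = Lab.A) (U : Finset α) (hU : c U ≠ Lab.A)
    (Q : Finset α → ℝ)
    (hQ : ∀ V ⊂ U, c V = Lab.A →
      (∑ x ∈ U \ V, Q (insert x V)) / ((U.card - V.card : ℕ) : ℝ) = Q V) :
    ∑ W ∈ U.powerset with c W ≠ Lab.A, P1 c U W * Q W = Q ∅ := by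
  have key : ∀ j ≤ U.card,
      (∑ i ∈ Finset.range (j + 1), ∑ W ∈ U.powersetCard i,
        if c W ≠ Lab.A then P1 c U W * Q W else 0) +
        ∑ V ∈ U.powersetCard j, fw c V / (U.card.choose j : ℝ) * Q V = Q ∅ := by
    intro j
    induction j with
    | zero =>
      intro _
      simp [hc, fw_empty]
    | succ j ih =>
      intro hj
      have ih' := ih (by omega)
      rw [Finset.sum_range_succ]
      have e1 : (∑ W ∈ U.powersetCard (j + 1), if c W ≠ Lab.A then P1 c U W * Q W else 0) +
          ∑ V ∈ U.powersetCard (j + 1), fw c V / (U.card.choose (j + 1) : ℝ) * Q V =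
          ∑ W ∈ U.powersetCard (j + 1), P1 c U W * Q W := by
        rw [← Finset.sum_add_distrib]
        refine Finset.sum_congr rfl fun W hW => ?_
        have hcard := (Finset.mem_powersetCard.1 hW).2
        have hne : W.Nonempty := by
          rw [← Finset.card_pos, hcard]; omega
        rw [fw_rec (nonempty_iff_ne_empty.1 hne)]
        unfold P1
        rw [hcard]
        by_cases h : c W = Lab.A
        · simp [h]
        · simp [h]
      have e2 := level_step c U j Q
      have e3 : ∑ V ∈ U.powersetCard j, fw c V / (U.card.choose j : ℝ) *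
          ((∑ x ∈ U \ V, Q (insert x V)) / ((U.card - j : ℕ) : ℝ)) =
          ∑ V ∈ U.powersetCard j, fw c V / (U.card.choose j : ℝ) * Q V := by
        refine Finset.sum_congr rfl fun V hV => ?_
        obtain ⟨hVU, hVc⟩ := Finset.mem_powersetCard.1 hV
        have hss : V ⊂ U := by
          refine ⟨hVU, fun h => ?_⟩
          have := Finset.card_le_card h
          omega
        by_cases hA : c V = Lab.A
        · have := hQ V hss hA
          rw [hVc] at this
          rw [this]
        · have hz : fw c V = 0 := by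
            by_cases hne : V.Nonempty
            · rw [fw_rec (nonempty_iff_ne_empty.1 hne), if_neg hA]
            · rw [Finset.not_nonempty_iff_eq_empty] at hne
              subst hne
              exact absurd hc hA
          rw [hz]; simp
      linarith
  have hfin := key U.card le_rfl
  have h0 : ∑ V ∈ U.powersetCard U.card, fw c V / (U.card.choose U.card : ℝ) * Q V = 0 := by
    rw [Finset.powersetCard_self, Finset.sum_singleton]
    have hz : fw c U = 0 := by
      by_cases hne : U.Nonempty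
      · rw [fw_rec (nonempty_iff_ne_empty.1 hne), if_neg hU]
      · rw [Finset.not_nonempty_iff_eq_empty] at hne
        subst hne
        exact absurd hc hU
    rw [hz]; simp
  have h1 : ∑ W ∈ U.powerset with c W ≠ Lab.A, P1 c U W * Q W =
      ∑ i ∈ Finset.range (U.card + 1), ∑ W ∈ U.powersetCard i,
        if c W ≠ Lab.A then P1 c U W * Q W else 0 := by
    rw [Finset.sum_filter, Finset.sum_powerset]
  rw [h1]
  linarith

/-! ### The vector inequality -/

lemma vec_ineq (s : Finset α) (c h : α → ℝ) {L : ℝ} (hL0 : 0 < L) (hL1 : L ≤ 1)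
    (hs : 0 < s.card) :
    2 * ∑ x ∈ s, c x * h x ≤ (∑ x ∈ s, h x ^ 2) / L - (∑ x ∈ s, h x) ^ 2 / (L * s.card + 1) +
      ((∑ x ∈ s, c x ^ 2) + (∑ x ∈ s, c x) ^ 2) := by
  have hn : (0 : ℝ) < s.card := by exact_mod_cast hs
  set n : ℝ := (s.card : ℝ) with hnd
  set C1 := ∑ x ∈ s, c x with hC1
  set C2 := ∑ x ∈ s, c x ^ 2 with hC2
  set H := ∑ x ∈ s, h x with hH
  set H2 := ∑ x ∈ s, h x ^ 2 with hH2
  set CH := ∑ x ∈ s, c x * h x with hCH
  have hv : ∑ x ∈ s, (h x - L * c x) = H - L * C1 := by
    rw [Finset.sum_sub_distrib, ← Finset.mul_sum]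
  have hv2 : ∑ x ∈ s, (h x - L * c x) ^ 2 = H2 - 2 * L * CH + L ^ 2 * C2 := by
    rw [hH2, hCH, hC2, Finset.mul_sum, Finset.mul_sum, ← Finset.sum_sub_distrib,
      ← Finset.sum_add_distrib]
    refine Finset.sum_congr rfl fun x _ => ?_
    ring
  have hcs : (H - L * C1) ^ 2 ≤ n * (H2 - 2 * L * CH + L ^ 2 * C2) := by
    rw [← hv, ← hv2]
    exact sq_sum_le_card_mul_sum_sq
  have hC2' : 0 ≤ C2 := Finset.sum_nonneg fun x _ => sq_nonneg _
  have h1 : (H - L * C1) ^ 2 / (L * n) ≤ H2 / L - 2 * CH + L * C2 := by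
    rw [div_le_iff₀ (by positivity)]
    have : (H2 / L - 2 * CH + L * C2) * (L * n) = n * (H2 - 2 * L * CH + L ^ 2 * C2) := by
      field_simp
    rw [this]; exact hcs
  have h2 : H ^ 2 / (L * n + 1) ≤ (H - L * C1) ^ 2 / (L * n) + (L * C1) ^ 2 := by
    rw [div_le_iff₀ (by positivity)]
    have hp : 0 < L * n := by positivity
    set u := H - L * C1 with hu
    have hHu : H = u + L * C1 := by rw [hu]; ring
    rw [hHu]
    have e : (u ^ 2 / (L * n) + (L * C1) ^ 2) * (L * n + 1) =
        u ^ 2 + u ^ 2 / (L * n) + (L * C1) ^ 2 * (L * n) + (L * C1) ^ 2 := by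
      field_simp
      ring
    rw [e]
    have e2 : 2 * (u * (L * C1)) ≤ u ^ 2 / (L * n) + (L * C1) ^ 2 * (L * n) := by
      have e3 : 0 ≤ (u / Real.sqrt (L * n) - (L * C1) * Real.sqrt (L * n)) ^ 2 := sq_nonneg _
      have e4 : (u / Real.sqrt (L * n) - (L * C1) * Real.sqrt (L * n)) ^ 2 =
          u ^ 2 / (L * n) - 2 * (u * (L * C1)) + (L * C1) ^ 2 * (L * n) := by
        have hsq : Real.sqrt (L * n) ^ 2 = L * n := Real.sq_sqrt hp.le
        have hne : Real.sqrt (L * n) ≠ 0 := (Real.sqrt_pos.2 hp).ne'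
        have : (u / Real.sqrt (L * n) - (L * C1) * Real.sqrt (L * n)) ^ 2 =
          u ^ 2 / (Real.sqrt (L * n) ^ 2) - 2 * (u * (L * C1)) +
            (L * C1) ^ 2 * (Real.sqrt (L * n) ^ 2) := by
          field_simp
          ring
        rw [this, hsq]
      linarith
    nlinarith [e2]
  have h3 : L * C2 ≤ C2 := by nlinarith
  have h4 : (L * C1) ^ 2 ≤ C1 ^ 2 := by
    rw [mul_pow]
    have : L ^ 2 ≤ 1 := by nlinarith
    nlinarith [sq_nonneg C1]
  linarith

/-- The function `C2 + C1 ^ 2` of the remaining elements. -/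
def Qf (c : α → ℝ) (s : Finset α) : ℝ := (∑ x ∈ s, c x ^ 2) + (∑ x ∈ s, c x) ^ 2

lemma Qf_nonneg (c : α → ℝ) (s : Finset α) : 0 ≤ Qf c s :=
  add_nonneg (Finset.sum_nonneg fun _ _ => sq_nonneg _) (sq_nonneg _)

lemma Qf_super (c : α → ℝ) (s : Finset α) :
    ∑ x ∈ s, Qf c (s.erase x) ≤ (s.card : ℝ) * Qf c s := by
  have h1 : ∀ x ∈ s, Qf c (s.erase x) =
      (∑ x ∈ s, c x ^ 2) - c x ^ 2 + ((∑ x ∈ s, c x) - c x) ^ 2 := by
    intro x hx
    unfold Qf
    rw [← Finset.add_sum_erase s (fun x => c x ^ 2) hx, ← Finset.add_sum_erase s c hx]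
    ring
  rw [Finset.sum_congr rfl h1]
  have h2 : ∑ x ∈ s, ((∑ x ∈ s, c x ^ 2) - c x ^ 2 + ((∑ x ∈ s, c x) - c x) ^ 2) =
      (s.card : ℝ) * (∑ x ∈ s, c x ^ 2) + (s.card : ℝ) * (∑ x ∈ s, c x) ^ 2 -
        2 * (∑ x ∈ s, c x) ^ 2 := by
    have h3 : ∀ x ∈ s, ((∑ x ∈ s, c x ^ 2) - c x ^ 2 + ((∑ x ∈ s, c x) - c x) ^ 2) =
        ((∑ x ∈ s, c x ^ 2) + (∑ x ∈ s, c x) ^ 2) - (2 * (∑ x ∈ s, c x)) * c x := by
      intro x _; ring
    rw [Finset.sum_congr rfl h3, Finset.sum_sub_distrib, Finset.sum_const, ← Finset.mul_sum]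
    simp only [nsmul_eq_mul]
    ring
  rw [h2]
  unfold Qf
  nlinarith [sq_nonneg (∑ x ∈ s, c x)]

/-! ### The statistics -/

/-- Number of slots before an object at `W`. -/
noncomputable def aF (c : Finset α → Lab) (p : Finset α → ℝ) (W : Finset α) : ℝ :=
  (W.card : ℝ) + if c W = Lab.X then p W else 0

/-- Fuel version of `bet`. -/
noncomputable def betn (c : Finset α → Lab) (p : Finset α → ℝ) :
    ℕ → Finset α → Finset α → ℝ
  | 0, U, _ => if c U = Lab.A then 0 else if c U = Lab.X then 1 - p U else 1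
  | n + 1, U, W => if c U = Lab.A then 0 else if c U = Lab.X then 1 - p U else
      1 + (∑ x ∈ U \ W, betn c p n (U.erase x) W) / ((n : ℝ) + 1)

/-- Expected number of slots after the last object, top set `U`, first object at `W`. -/
noncomputable def bet (c : Finset α → Lab) (p : Finset α → ℝ) (U W : Finset α) : ℝ :=
  betn c p (U \ W).card U W

lemma bet_A {c : Finset α → Lab} (p : Finset α → ℝ) {U : Finset α} (W : Finset α)
    (h : c U = Lab.A) : bet c p U W = 0 := by
  unfold bet
  cases (U \ W).card <;> simp [betn, h]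

lemma bet_X {c : Finset α → Lab} (p : Finset α → ℝ) {U : Finset α} (W : Finset α)
    (h : c U = Lab.X) : bet c p U W = 1 - p U := by
  unfold bet
  cases (U \ W).card <;> simp [betn, h]

lemma bet_B {c : Finset α → Lab} (p : Finset α → ℝ) {U : Finset α} (W : Finset α)
    (h : c U = Lab.B) :
    bet c p U W = 1 + (∑ x ∈ U \ W, bet c p (U.erase x) W) / ((U \ W).card : ℝ) := by
  rcases Nat.eq_zero_or_pos (U \ W).card with h0 | h0
  · have : U \ W = ∅ := Finset.card_eq_zero.1 h0
    unfold bet
    rw [h0, this]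
    simp [betn, h]
  · obtain ⟨n, hn⟩ : ∃ n, (U \ W).card = n + 1 := ⟨(U \ W).card - 1, by omega⟩
    have h1 : bet c p U W = betn c p (n + 1) U W := by unfold bet; rw [hn]
    rw [h1]
    simp only [betn, h]
    rw [hn]
    simp only [reduceCtorEq, if_false]
    congr 2
    · refine Finset.sum_congr rfl fun x hx => ?_
      unfold bet
      have hx' := Finset.mem_sdiff.1 hx
      have : (U.erase x \ W).card = n := by
        have e : U.erase x \ W = (U \ W).erase x := by
          ext y; simp only [Finset.mem_sdiff, Finset.mem_erase]; tauto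
        rw [e, Finset.card_erase_of_mem hx, hn]; rfl
      rw [this]
    · push_cast; ring

/-- Slots after the object at `W`, top `U`. -/
noncomputable def bF (c : Finset α → Lab) (p : Finset α → ℝ) (U W : Finset α) : ℝ :=
  (U.card : ℝ) + 1 - aF c p W

/-- Expected number of slots between first and last object. -/
noncomputable def dF (c : Finset α → Lab) (p : Finset α → ℝ) (U W : Finset α) : ℝ :=
  bF c p U W - bet c p U W

lemma dF_self {c : Finset α → Lab} (p : Finset α → ℝ) {U : Finset α} (h : c U ≠ Lab.A) :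
    dF c p U U = 0 := by
  unfold dF bF aF
  cases hc : c U with
  | A => exact absurd hc h
  | X => rw [bet_X p U hc]; simp
  | B => rw [bet_B p U hc]; simp

lemma bF_erase (c : Finset α → Lab) (p : Finset α → ℝ) {U : Finset α} (W : Finset α) {x : α}
    (hx : x ∈ U) : bF c p (U.erase x) W = bF c p U W - 1 := by
  unfold bF
  rw [Finset.card_erase_of_mem hx, Nat.cast_sub (Finset.card_pos.2 ⟨x, hx⟩)]
  push_cast; ring

lemma dF_B {c : Finset α → Lab} (p : Finset α → ℝ) {U W : Finset α} (hW : W ⊆ U)
    (h : c U = Lab.B) :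
    dF c p U W = (∑ x ∈ U \ W, dF c p (U.erase x) W) / ((U \ W).card : ℝ) := by
  rcases Nat.eq_zero_or_pos (U \ W).card with h0 | h0
  · have h1 : U \ W = ∅ := Finset.card_eq_zero.1 h0
    have h2 : W = U := Finset.Subset.antisymm hW (Finset.sdiff_eq_empty_iff_subset.1 h1)
    rw [h1]
    subst h2
    rw [dF_self p (by rw [h]; decide)]
    simp
  · have hn : (0 : ℝ) < ((U \ W).card : ℝ) := by exact_mod_cast h0
    have h1 : ∀ x ∈ U \ W, dF c p (U.erase x) W = (bF c p U W - 1) - bet c p (U.erase x) W := by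
      intro x hx
      unfold dF
      rw [bF_erase c p W (Finset.mem_sdiff.1 hx).1]
    rw [Finset.sum_congr rfl h1, Finset.sum_sub_distrib, Finset.sum_const]
    unfold dF
    rw [bet_B p W h]
    simp only [nsmul_eq_mul]
    field_simp
    ring

/-- `Y U` is the mean number of slots between the first and the last object. -/
noncomputable def YF (c : Finset α → Lab) (p : Finset α → ℝ) (U : Finset α) : ℝ :=
  ∑ W ∈ U.powerset with c W ≠ Lab.A, P1 c U W * dF c p U W

noncomputable def RF (c : Finset α → Lab) (p : Finset α → ℝ) (U : Finset α) : ℝ :=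
  ∑ W ∈ U.powerset with c W ≠ Lab.A, P1 c U W * (dF c p U W ^ 2 / bF c p U W)

lemma YF_B {c : Finset α → Lab} (p : Finset α → ℝ) {U : Finset α} (h : c U = Lab.B) :
    YF c p U = (∑ x ∈ U, YF c p (U.erase x)) / (U.card : ℝ) := by
  unfold YF
  rw [← P1_avg c U (fun W x => dF c p (U.erase x) W)]
  refine Finset.sum_congr rfl fun W hW => ?_
  rw [dF_B p (Finset.mem_powerset.1 (Finset.mem_filter.1 hW).1) h]

/-- Fuel version of `Lst`. -/
noncomputable def Lstn (c : Finset α → Lab) (f : Finset α → ℝ) : ℕ → Finset α → ℝ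
  | 0, U => if c U = Lab.B then 0 else f U
  | n + 1, U => if c U = Lab.B then (∑ x ∈ U, Lstn c f n (U.erase x)) / ((n : ℝ) + 1) else f U

/-- Mean value of `f` at the last set without label `B` of a uniform chain `∅ → U`. -/
noncomputable def Lst (c : Finset α → Lab) (f : Finset α → ℝ) (U : Finset α) : ℝ :=
  Lstn c f U.card U

lemma Lst_ne {c : Finset α → Lab} (f : Finset α → ℝ) {U : Finset α} (h : c U ≠ Lab.B) :
    Lst c f U = f U := by
  unfold Lst
  cases U.card <;> simp [Lstn, h]

lemma Lst_B {c : Finset α → Lab} (f : Finset α → ℝ) {U : Finset α} (h : c U = Lab.B) :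
    Lst c f U = (∑ x ∈ U, Lst c f (U.erase x)) / (U.card : ℝ) := by
  rcases Nat.eq_zero_or_pos U.card with h0 | h0
  · have : U = ∅ := Finset.card_eq_zero.1 h0
    subst this
    simp [Lst, Lstn, h]
  · obtain ⟨n, hn⟩ : ∃ n, U.card = n + 1 := ⟨U.card - 1, by omega⟩
    have h1 : Lst c f U = Lstn c f (n + 1) U := by unfold Lst; rw [hn]
    rw [h1]
    simp only [Lstn, h, if_true]
    rw [hn]
    congr 1
    · refine Finset.sum_congr rfl fun x hx => ?_
      unfold Lst
      rw [Finset.card_erase_of_mem hx, hn]; rfl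
    · push_cast; ring

/-- Slots before an object with lower end `V`. -/
noncomputable def aL (c : Finset α → Lab) (p : Finset α → ℝ) (V : Finset α) : ℝ :=
  (V.card : ℝ) + if c V = Lab.X then p V else 1

lemma P1_sum_le_one (c : Finset α → Lab) (hc : c ∅ = Lab.A) (U : Finset α) :
    ∑ W ∈ U.powerset with c W ≠ Lab.A, P1 c U W ≤ 1 := by
  have h := stopping_le c hc U (fun _ => 1) (fun _ _ => zero_le_one) (by
    intro V hV
    simp only [Finset.sum_const, nsmul_eq_mul, mul_one]
    rw [Finset.card_sdiff_of_subset hV.1]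
    exact div_self_le_one _)
  simpa using h

/-- The step inequality. -/
lemma step_ineq {c : Finset α → Lab} {p : Finset α → ℝ} (hc : c ∅ = Lab.A)
    (hp0 : ∀ V, 0 ≤ p V) (hp1 : ∀ V, p V ≤ 1) {U : Finset α} (h : c U = Lab.B) :
    RF c p U - YF c p U ^ 2 / ((U.card : ℝ) + 1) ≤
      (∑ x ∈ U, (RF c p (U.erase x) - YF c p (U.erase x) ^ 2 / (U.card : ℝ))) /
        (U.card : ℝ) := by
  have hUne : U.Nonempty := by
    by_contra hne
    rw [Finset.not_nonempty_iff_eq_empty] at hne
    subst hne
    rw [hc] at h; exact absurd h (by decide)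
  have hm : (0 : ℝ) < (U.card : ℝ) := by exact_mod_cast hUne.card_pos
  set m : ℝ := (U.card : ℝ) with hmd
  set y : α → ℝ := fun x => YF c p (U.erase x) / m with hy
  set sg := ∑ x ∈ U, y x with hsg
  set cc : α → ℝ := fun x => y x - sg / (m + 1) with hcc
  have hsigma : YF c p U = sg := by
    rw [YF_B p h, hsg, hy, Finset.sum_div]
  -- pointwise inequality
  have hpt : ∀ W ∈ U.powerset.filter (fun W => c W ≠ Lab.A),
      2 * ((∑ x ∈ U \ W, cc x * dF c p (U.erase x) W) / ((U \ W).card : ℝ)) ≤
        (∑ x ∈ U \ W, dF c p (U.erase x) W ^ 2 / bF c p (U.erase x) W) / ((U \ W).card : ℝ) -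
          dF c p U W ^ 2 / bF c p U W + Qf cc (U \ W) := by
    intro W hW
    have hWU := Finset.mem_powerset.1 (Finset.mem_filter.1 hW).1
    have hWA := (Finset.mem_filter.1 hW).2
    rcases Nat.eq_zero_or_pos (U \ W).card with h0 | h0
    · have h1 : U \ W = ∅ := Finset.card_eq_zero.1 h0
      have h2 : W = U := Finset.Subset.antisymm hWU (Finset.sdiff_eq_empty_iff_subset.1 h1)
      rw [dF_B p hWU h, h1]
      simp [Qf]
    · have hn : (0 : ℝ) < ((U \ W).card : ℝ) := by exact_mod_cast h0
      set n : ℝ := ((U \ W).card : ℝ) with hnd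
      set pw : ℝ := if c W = Lab.X then p W else 0 with hpw
      have hpw0 : 0 ≤ pw := by rw [hpw]; split_ifs; exacts [hp0 W, le_rfl]
      have hpw1 : pw ≤ 1 := by rw [hpw]; split_ifs; exacts [hp1 W, zero_le_one]
      have hb : bF c p U W = n - pw + 1 := by
        unfold bF aF
        rw [hnd, Finset.card_sdiff_of_subset hWU, Nat.cast_sub (Finset.card_le_card hWU)]
        ring
      have hbe : ∀ x ∈ U \ W, bF c p (U.erase x) W = n - pw := by
        intro x hx
        rw [bF_erase c p W (Finset.mem_sdiff.1 hx).1, hb]; ring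
      have hdU := dF_B p hWU h
      by_cases hnp : n - pw = 0
      · -- n = 1, p = 1
        have hn1 : n = 1 := by
          have h1 : n ≤ 1 := by linarith
          have h2 : (1 : ℝ) ≤ n := by rw [hnd]; exact_mod_cast h0
          linarith
        have hc1 : (U \ W).card = 1 := by
          have : ((U \ W).card : ℝ) = 1 := by rw [← hnd]; exact hn1
          exact_mod_cast this
        obtain ⟨x, hx⟩ := Finset.card_eq_one.1 hc1
        have hxU : x ∈ U \ W := by rw [hx]; simp
        have hWe : U.erase x = W := by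
          ext z
          simp only [Finset.mem_erase]
          constructor
          · rintro ⟨hz1, hz2⟩
            by_contra hzW
            have : z ∈ U \ W := Finset.mem_sdiff.2 ⟨hz2, hzW⟩
            rw [hx] at this
            exact hz1 (Finset.mem_singleton.1 this)
          · intro hz
            refine ⟨?_, hWU hz⟩
            rintro rfl
            exact (Finset.mem_sdiff.1 hxU).2 hz
        have hd0 : dF c p (U.erase x) W = 0 := by
          rw [hWe]; exact dF_self p hWA
        rw [hdU, hx]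
        simp only [Finset.sum_singleton, hd0]
        simp only [mul_zero, zero_div, ne_eq, OfNat.ofNat_ne_zero, not_false_eq_true, zero_pow,
          sub_zero, zero_add]
        exact Qf_nonneg _ _
      · have hpos : 0 < n - pw := by
          have h2 : (1 : ℝ) ≤ n := by rw [hnd]; exact_mod_cast h0
          exact lt_of_le_of_ne (by linarith) (Ne.symm hnp)
        have hv := vec_ineq (U \ W) cc (fun x => dF c p (U.erase x) W / n)
          (L := (n - pw) / n) (by positivity) (by rw [div_le_one hn]; linarith) h0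
        rw [← hnd] at hv
        have e1 : ∑ x ∈ U \ W, cc x * (dF c p (U.erase x) W / n) =
            (∑ x ∈ U \ W, cc x * dF c p (U.erase x) W) / n := by
          rw [Finset.sum_div]
          refine Finset.sum_congr rfl fun x _ => ?_
          ring
        have e2 : (∑ x ∈ U \ W, (dF c p (U.erase x) W / n) ^ 2) / ((n - pw) / n) =
            (∑ x ∈ U \ W, dF c p (U.erase x) W ^ 2 / bF c p (U.erase x) W) / n := by
          rw [Finset.sum_div, Finset.sum_div]
          refine Finset.sum_congr rfl fun x hx => ?_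
          rw [hbe x hx]
          field_simp
        have e3 : ∑ x ∈ U \ W, dF c p (U.erase x) W / n = dF c p U W := by
          rw [hdU, Finset.sum_div]
        have e4 : (n - pw) / n * n + 1 = bF c p U W := by
          rw [hb]; field_simp
        rw [e1, e2, e3, e4] at hv
        unfold Qf
        linarith
  -- sum with weights P1
  have hsum : ∑ W ∈ U.powerset with c W ≠ Lab.A, P1 c U W *
      (2 * ((∑ x ∈ U \ W, cc x * dF c p (U.erase x) W) / ((U \ W).card : ℝ))) ≤
      ∑ W ∈ U.powerset with c W ≠ Lab.A, P1 c U W *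
        ((∑ x ∈ U \ W, dF c p (U.erase x) W ^ 2 / bF c p (U.erase x) W) /
          ((U \ W).card : ℝ) - dF c p U W ^ 2 / bF c p U W + Qf cc (U \ W)) :=
    Finset.sum_le_sum fun W hW => mul_le_mul_of_nonneg_left (hpt W hW) (P1_nonneg _ _ _)
  have hl : ∑ W ∈ U.powerset with c W ≠ Lab.A, P1 c U W *
      (2 * ((∑ x ∈ U \ W, cc x * dF c p (U.erase x) W) / ((U \ W).card : ℝ))) =
      2 * ∑ x ∈ U, cc x * y x := by
    have h1 : ∀ W ∈ U.powerset.filter (fun W => c W ≠ Lab.A), P1 c U W *
      (2 * ((∑ x ∈ U \ W, cc x * dF c p (U.erase x) W) / ((U \ W).card : ℝ))) =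
      2 * (P1 c U W * ((∑ x ∈ U \ W, cc x * dF c p (U.erase x) W) /
        ((U \ W).card : ℝ))) := fun W _ => by ring
    rw [Finset.sum_congr rfl h1, ← Finset.mul_sum,
      P1_avg c U (fun W x => cc x * dF c p (U.erase x) W), Finset.sum_div]
    congr 1
    refine Finset.sum_congr rfl fun x _ => ?_
    rw [hy]
    simp only
    unfold YF
    rw [← mul_div_assoc, Finset.mul_sum]
    congr 1
    refine Finset.sum_congr rfl fun W _ => ?_
    ring
  have hr : ∑ W ∈ U.powerset with c W ≠ Lab.A, P1 c U W *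
        ((∑ x ∈ U \ W, dF c p (U.erase x) W ^ 2 / bF c p (U.erase x) W) /
          ((U \ W).card : ℝ) - dF c p U W ^ 2 / bF c p U W + Qf cc (U \ W)) =
      (∑ x ∈ U, RF c p (U.erase x)) / m - RF c p U +
        ∑ W ∈ U.powerset with c W ≠ Lab.A, P1 c U W * Qf cc (U \ W) := by
    have h1 : ∀ W ∈ U.powerset.filter (fun W => c W ≠ Lab.A), P1 c U W *
        ((∑ x ∈ U \ W, dF c p (U.erase x) W ^ 2 / bF c p (U.erase x) W) /
          ((U \ W).card : ℝ) - dF c p U W ^ 2 / bF c p U W + Qf cc (U \ W)) =
        P1 c U W * ((∑ x ∈ U \ W, dF c p (U.erase x) W ^ 2 / bF c p (U.erase x) W) /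
          ((U \ W).card : ℝ)) - P1 c U W * (dF c p U W ^ 2 / bF c p U W) +
          P1 c U W * Qf cc (U \ W) := fun W _ => by ring
    rw [Finset.sum_congr rfl h1, Finset.sum_add_distrib, Finset.sum_sub_distrib,
      P1_avg c U (fun W x => dF c p (U.erase x) W ^ 2 / bF c p (U.erase x) W)]
    rfl
  have hQ : ∑ W ∈ U.powerset with c W ≠ Lab.A, P1 c U W * Qf cc (U \ W) ≤ Qf cc U := by
    have := stopping_le c hc U (fun W => Qf cc (U \ W)) (fun _ _ => Qf_nonneg _ _) (by
      intro V hV
      have h1 : ∀ x ∈ U \ V, Qf cc (U \ insert x V) = Qf cc ((U \ V).erase x) := by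
        intro x _
        congr 1
        ext z
        simp only [Finset.mem_sdiff, Finset.mem_insert, Finset.mem_erase]
        tauto
      have hcard : ((U.card - V.card : ℕ) : ℝ) = ((U \ V).card : ℝ) := by
        rw [Finset.card_sdiff_of_subset hV.1]
      have hpos : (0 : ℝ) < ((U \ V).card : ℝ) := by
        have : (U \ V).Nonempty := by
          rw [Finset.sdiff_nonempty]; exact hV.2
        exact_mod_cast this.card_pos
      rw [Finset.sum_congr rfl h1, hcard, div_le_iff₀ hpos, mul_comm]
      exact Qf_super cc (U \ V))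
    simpa using this
  rw [hl, hr] at hsum
  -- algebra
  have hsq : ∑ x ∈ U, y x ^ 2 = (∑ x ∈ U, YF c p (U.erase x) ^ 2 / m) / m := by
    rw [Finset.sum_div]
    refine Finset.sum_congr rfl fun x _ => ?_
    rw [hy]
    simp only
    rw [div_pow, div_div, sq m]
  have hcy : ∑ x ∈ U, cc x * y x = (∑ x ∈ U, y x ^ 2) - sg ^ 2 / (m + 1) := by
    have : ∀ x ∈ U, cc x * y x = y x ^ 2 - sg / (m + 1) * y x := by
      intro x _; rw [hcc]; ring
    rw [Finset.sum_congr rfl this, Finset.sum_sub_distrib, ← Finset.mul_sum, ← hsg]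
    ring
  have hc1 : ∑ x ∈ U, cc x = sg / (m + 1) := by
    rw [hcc]
    rw [Finset.sum_sub_distrib, Finset.sum_const, ← hsg, nsmul_eq_mul, ← hmd]
    field_simp
    ring
  have hc2 : ∑ x ∈ U, cc x ^ 2 =
      (∑ x ∈ U, y x ^ 2) - 2 * sg ^ 2 / (m + 1) + m * sg ^ 2 / (m + 1) ^ 2 := by
    have : ∀ x ∈ U, cc x ^ 2 = y x ^ 2 - 2 * (sg / (m + 1)) * y x + (sg / (m + 1)) ^ 2 := by
      intro x _; rw [hcc]; ring
    rw [Finset.sum_congr rfl this, Finset.sum_add_distrib, Finset.sum_sub_distrib,
      ← Finset.mul_sum, ← hsg, Finset.sum_const, nsmul_eq_mul, ← hmd]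
    field_simp
  have hQU : Qf cc U = (∑ x ∈ U, y x ^ 2) - sg ^ 2 / (m + 1) := by
    unfold Qf
    rw [hc1, hc2]
    field_simp
    ring
  have hgoal : (∑ x ∈ U, (RF c p (U.erase x) - YF c p (U.erase x) ^ 2 / m)) / m =
      (∑ x ∈ U, RF c p (U.erase x)) / m - ∑ x ∈ U, y x ^ 2 := by
    rw [Finset.sum_sub_distrib, sub_div, hsq]
  rw [hgoal, hsigma]
  rw [hcy] at hsum
  rw [hQU] at hQ
  linarith


/-! ### The induction -/

lemma aL_pos (c : Finset α → Lab) (p : Finset α → ℝ) (hp0 : ∀ V, 0 ≤ p V) (hc : c ∅ = Lab.A)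
    (V : Finset α) : 0 < aL c p V := by
  unfold aL
  split_ifs with h
  · have : V.Nonempty := by
      by_contra hne
      rw [Finset.not_nonempty_iff_eq_empty] at hne
      subst hne
      rw [hc] at h; exact absurd h (by decide)
    have h1 : (0 : ℝ) < (V.card : ℝ) := by exact_mod_cast this.card_pos
    have := hp0 V
    linarith
  · positivity

lemma main_ineq {c : Finset α → Lab} {p : Finset α → ℝ} (hc : c ∅ = Lab.A)
    (hp0 : ∀ V, 0 ≤ p V) (hp1 : ∀ V, p V ≤ 1) (U : Finset α) :
    RF c p U - YF c p U ^ 2 / ((U.card : ℝ) + 1) ≤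
      YF c p U - Lst c (fun V => YF c p V ^ 2 / aL c p V) U := by
  induction U using Finset.strongInduction with
  | H U ih =>
  cases hcU : c U with
  | A =>
    rw [Lst_ne _ (by rw [hcU]; decide)]
    have h1 : RF c p U = YF c p U := by
      unfold RF YF
      refine Finset.sum_congr rfl fun W _ => ?_
      have : dF c p U W = bF c p U W := by
        unfold dF; rw [bet_A p W hcU]; ring
      rw [this, sq, mul_self_div_self]
    have h2 : aL c p U = (U.card : ℝ) + 1 := by
      unfold aL; rw [hcU]; simp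
    rw [h1, h2]
  | X =>
    rw [Lst_ne _ (by rw [hcU]; decide)]
    have hUne : U.Nonempty := by
      by_contra hne
      rw [Finset.not_nonempty_iff_eq_empty] at hne
      subst hne
      rw [hc] at hcU; exact absurd hcU (by decide)
    have hm1 : (1 : ℝ) ≤ (U.card : ℝ) := by exact_mod_cast hUne.card_pos
    set m : ℝ := (U.card : ℝ) with hmd
    set dl : ℝ := 1 - p U with hdl
    have hdl0 : 0 ≤ dl := by have := hp1 U; linarith
    have hdl1 : dl ≤ 1 := by have := hp0 U; linarith
    have haL : aL c p U = m + 1 - dl := by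
      unfold aL; rw [hcU]; simp only [if_true]; rw [hdl, hmd]; ring
    have hd : ∀ W, dF c p U W = bF c p U W - dl := by
      intro W; unfold dF; rw [bet_X p W hcU]
    have hb : ∀ W ∈ U.powerset.filter (fun W => c W ≠ Lab.A),
        dl ≤ bF c p U W ∧ bF c p U W ≤ m + 1 ∧ (bF c p U W = 0 → dF c p U W = 0) := by
      intro W hW
      have hWU := Finset.mem_powerset.1 (Finset.mem_filter.1 hW).1
      have hWA := (Finset.mem_filter.1 hW).2
      have hcard := Finset.card_le_card hWU
      refine ⟨?_, ?_, ?_⟩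
      · by_cases hWe : W = U
        · subst hWe
          unfold bF aF
          rw [hcU]; simp [hdl]
        · have hlt : W.card < U.card :=
            Finset.card_lt_card ⟨hWU, fun h => hWe (Finset.Subset.antisymm hWU h)⟩
          have h1 : (W.card : ℝ) + 1 ≤ m := by rw [hmd]; exact_mod_cast hlt
          unfold bF aF
          have h2 : (if c W = Lab.X then p W else 0) ≤ 1 := by
            split_ifs; exacts [hp1 W, zero_le_one]
          rw [← hmd]
          linarith
      · unfold bF aF
        have h2 : 0 ≤ (if c W = Lab.X then p W else 0) := by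
          split_ifs; exacts [hp0 W, le_rfl]
        have h3 : (0 : ℝ) ≤ (W.card : ℝ) := by positivity
        rw [← hmd]
        linarith
      · intro hb0
        by_cases hWe : W = U
        · subst hWe; exact dF_self p hWA
        · exfalso
          have hlt : W.card < U.card :=
            Finset.card_lt_card ⟨hWU, fun h => hWe (Finset.Subset.antisymm hWU h)⟩
          have h1 : (W.card : ℝ) + 1 ≤ m := by rw [hmd]; exact_mod_cast hlt
          unfold bF aF at hb0
          have h2 : (if c W = Lab.X then p W else 0) ≤ 1 := by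
            split_ifs; exacts [hp1 W, zero_le_one]
          rw [← hmd] at hb0
          linarith
    have hY0 : 0 ≤ YF c p U := by
      unfold YF
      refine Finset.sum_nonneg fun W hW => mul_nonneg (P1_nonneg _ _ _) ?_
      rw [hd W]; have := (hb W hW).1; linarith
    have hY1 : YF c p U ≤ m + 1 - dl := by
      have h1 : YF c p U ≤ ∑ W ∈ U.powerset with c W ≠ Lab.A, P1 c U W * (m + 1 - dl) := by
        unfold YF
        refine Finset.sum_le_sum fun W hW => mul_le_mul_of_nonneg_left ?_ (P1_nonneg _ _ _)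
        rw [hd W]; have := (hb W hW).2.1; linarith
      rw [← Finset.sum_mul] at h1
      have h2 := P1_sum_le_one c hc U
      have h3 : 0 ≤ m + 1 - dl := by linarith
      nlinarith
    have hR : RF c p U ≤ YF c p U - dl * YF c p U / (m + 1) := by
      have h1 : YF c p U - dl * YF c p U / (m + 1) =
          ∑ W ∈ U.powerset with c W ≠ Lab.A,
            P1 c U W * (dF c p U W - dl * dF c p U W / (m + 1)) := by
        have : ∀ W ∈ U.powerset.filter (fun W => c W ≠ Lab.A),
            P1 c U W * (dF c p U W - dl * dF c p U W / (m + 1)) =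
            P1 c U W * dF c p U W - dl / (m + 1) * (P1 c U W * dF c p U W) := by
          intro W _; ring
        rw [Finset.sum_congr rfl this, Finset.sum_sub_distrib, ← Finset.mul_sum]
        unfold YF
        ring
      rw [h1]
      unfold RF
      refine Finset.sum_le_sum fun W hW => mul_le_mul_of_nonneg_left ?_ (P1_nonneg _ _ _)
      obtain ⟨hb1, hb2, hb3⟩ := hb W hW
      by_cases hb0 : bF c p U W = 0
      · rw [hb3 hb0]; simp
      · have hbpos : 0 < bF c p U W := lt_of_le_of_ne (by linarith) (Ne.symm hb0)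
        have hdnn : 0 ≤ dF c p U W := by rw [hd W]; linarith
        have e1 : dF c p U W ^ 2 / bF c p U W =
            dF c p U W - dl * dF c p U W / bF c p U W := by
          have : dF c p U W ^ 2 = dF c p U W * (bF c p U W - dl) := by rw [hd W]; ring
          rw [this]
          field_simp
        rw [e1]
        have e2 : dl * dF c p U W / (m + 1) ≤ dl * dF c p U W / bF c p U W :=
          div_le_div_of_nonneg_left (mul_nonneg hdl0 hdnn) hbpos hb2
        linarith
    rw [haL]
    set Y := YF c p U with hYd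
    have hpos1 : 0 < m + 1 := by linarith
    have hpos2 : 0 < m + 1 - dl := by linarith
    have hk : Y ^ 2 / (m + 1 - dl) ≤ (dl * Y + Y ^ 2) / (m + 1) := by
      rw [div_le_div_iff₀ hpos2 hpos1]
      nlinarith [mul_nonneg (mul_nonneg hdl0 hY0) (sub_nonneg.2 hY1)]
    have hk2 : (dl * Y + Y ^ 2) / (m + 1) = dl * Y / (m + 1) + Y ^ 2 / (m + 1) := by ring
    rw [hk2] at hk
    linarith
  | B =>
    rw [Lst_B _ hcU]
    have hst := step_ineq (p := p) hc hp0 hp1 hcU
    have hUne : U.Nonempty := by
      by_contra hne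
      rw [Finset.not_nonempty_iff_eq_empty] at hne
      subst hne
      rw [hc] at hcU; exact absurd hcU (by decide)
    have hm : (0 : ℝ) < (U.card : ℝ) := by exact_mod_cast hUne.card_pos
    refine hst.trans ?_
    rw [YF_B p hcU, ← sub_div, ← Finset.sum_sub_distrib]
    refine div_le_div_of_nonneg_right (Finset.sum_le_sum fun x hx => ?_) hm.le
    have h1 := ih (U.erase x) (Finset.erase_ssubset hx)
    have h2 : ((U.erase x).card : ℝ) + 1 = (U.card : ℝ) := by
      rw [Finset.card_erase_of_mem hx, Nat.cast_sub hUne.card_pos]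
      push_cast; ring
    rw [h2] at h1
    exact h1

end R5.QP
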