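import Pool.Agent.Work.MP_8b6acb_cap_helper63.QPIA

/-!
# (Q^pi), second part: first-step decompositions and closed forms
-/

namespace R5.QP

open Finset

variable {α : Type} [DecidableEq α]

/-! ### First-step decompositions -/

theorem sum_offdiag (U : Finset α) (F : α → α → ℝ) :
    ∑ y ∈ U, ∑ x ∈ U.erase y, F y x = ∑ x ∈ U, ∑ y ∈ U.erase x, F y x := by
  refine Finset.sum_comm' ?_
  intro y x
  simp only [Finset.mem_erase]
  constructor
  · rintro ⟨h1, h2, h3⟩
    exact ⟨⟨fun h => h2 h.symm, h1⟩, h3⟩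
  · rintro ⟨⟨h1, h2⟩, h3⟩
    exact ⟨h2, fun h => h1 h.symm, h3⟩

/-- The labelling above `{x}`. -/
def up (σ : Finset α → Lab) (x : α) : Finset α → Lab := fun Z => σ (insert x Z)

theorem up_erase {σ : Finset α → Lab} {x : α} {U : Finset α} (hx : x ∈ U) :
    up σ x (U.erase x) = σ U := by
  unfold up; rw [Finset.insert_erase hx]

theorem fw_first {σ : Finset α → Lab} (h0 : σ ∅ = Lab.A) {U : Finset α} (hU : U ≠ ∅) :
    fw σ U = (∑ x ∈ U, fw (up σ x) (U.erase x)) / (U.card : ℝ) := by
  induction U using Finset.strongInduction with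
  | H U ih =>
  have hne : U.Nonempty := Finset.nonempty_iff_ne_empty.2 hU
  have hm : (0 : ℝ) < (U.card : ℝ) := by exact_mod_cast hne.card_pos
  rw [fw_rec hU]
  by_cases h1 : U.card = 1
  · obtain ⟨x, rfl⟩ := Finset.card_eq_one.1 h1
    have e1 : ({x} : Finset α).erase x = ∅ := by simp
    unfold fwb
    simp only [Finset.sum_singleton, e1, fw_empty, h0, if_true, Finset.card_singleton,
      Nat.cast_one, div_one]
    have : up σ x ∅ = σ {x} := by simp [up]
    rw [this]
  · have h2 : 2 ≤ U.card := by have := hne.card_pos; omega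
    have hne2 : ∀ y ∈ U, U.erase y ≠ ∅ := by
      intro y hy h
      have := Finset.card_erase_of_mem hy
      rw [h, Finset.card_empty] at this
      omega
    by_cases hA : σ U = Lab.A
    · rw [if_pos hA]
      unfold fwb
      have e1 : ∀ y ∈ U, fw σ (U.erase y) =
          ∑ x ∈ U.erase y, fw (up σ x) ((U.erase y).erase x) / ((U.card : ℝ) - 1) := by
        intro y hy
        rw [ih _ (Finset.erase_ssubset hy) (hne2 y hy), Finset.sum_div]
        refine Finset.sum_congr rfl fun x _ => ?_
        rw [Finset.card_erase_of_mem hy, Nat.cast_sub hne.card_pos]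
        simp
      have e2 : ∀ x ∈ U, fw (up σ x) (U.erase x) =
          ∑ y ∈ U.erase x, fw (up σ x) ((U.erase y).erase x) / ((U.card : ℝ) - 1) := by
        intro x hx
        rw [fw_rec (hne2 x hx), up_erase hx, if_pos hA]
        unfold fwb
        rw [Finset.sum_div]
        refine Finset.sum_congr rfl fun y _ => ?_
        rw [Finset.card_erase_of_mem hx, Nat.cast_sub hne.card_pos, Finset.erase_right_comm]
        simp
      rw [Finset.sum_congr rfl e1, Finset.sum_congr rfl e2,
        sum_offdiag U (fun y x => fw (up σ x) ((U.erase y).erase x) / ((U.card : ℝ) - 1))]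
    · rw [if_neg hA]
      have e2 : ∀ x ∈ U, fw (up σ x) (U.erase x) = 0 := by
        intro x hx
        apply fw_of_ne
        rw [up_erase hx]; exact hA
      rw [Finset.sum_congr rfl e2]
      simp

theorem fwb_first {σ : Finset α → Lab} (h0 : σ ∅ = Lab.A) {U : Finset α} (h2 : 2 ≤ U.card) :
    fwb σ U = (∑ x ∈ U, fwb (up σ x) (U.erase x)) / (U.card : ℝ) := by
  have hne : U.Nonempty := by rw [← Finset.card_pos]; omega
  have hne2 : ∀ y ∈ U, U.erase y ≠ ∅ := by
    intro y hy h
    have := Finset.card_erase_of_mem hy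
    rw [h, Finset.card_empty] at this
    omega
  have e1 : ∀ y ∈ U, fw σ (U.erase y) =
      ∑ x ∈ U.erase y, fw (up σ x) ((U.erase y).erase x) / ((U.card : ℝ) - 1) := by
    intro y hy
    rw [fw_first h0 (hne2 y hy), Finset.sum_div]
    refine Finset.sum_congr rfl fun x _ => ?_
    rw [Finset.card_erase_of_mem hy, Nat.cast_sub hne.card_pos]
    simp
  have e2 : ∀ x ∈ U, fwb (up σ x) (U.erase x) =
      ∑ y ∈ U.erase x, fw (up σ x) ((U.erase y).erase x) / ((U.card : ℝ) - 1) := by
    intro x hx
    unfold fwb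
    rw [Finset.sum_div]
    refine Finset.sum_congr rfl fun y _ => ?_
    rw [Finset.card_erase_of_mem hx, Nat.cast_sub hne.card_pos, Finset.erase_right_comm]
    simp
  have e3 : fwb σ U = (∑ y ∈ U, fw σ (U.erase y)) / (U.card : ℝ) := rfl
  rw [e3, Finset.sum_congr rfl e1, Finset.sum_congr rfl e2,
    sum_offdiag U (fun y x => fw (up σ x) ((U.erase y).erase x) / ((U.card : ℝ) - 1))]

/-! ### Sums over subsets with binomial weights -/

/-- `∑ φ(U) / C(|V|,|U|)`. -/
noncomputable def GS (φ : Finset α → ℝ) (V : Finset α) : ℝ :=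
  ∑ U ∈ V.powerset, φ U / (V.card.choose U.card : ℝ)

theorem GS_empty (φ : Finset α → ℝ) : GS φ ∅ = φ ∅ := by
  simp [GS]

theorem sum_pairs' (V : Finset α) (F : Finset α → α → ℝ) :
    ∑ Z ∈ V.powerset, ∑ x ∈ V \ Z, F Z x = ∑ x ∈ V, ∑ Z ∈ (V.erase x).powerset, F Z x := by
  refine Finset.sum_comm' ?_
  intro W x
  simp only [Finset.mem_powerset, Finset.mem_sdiff, Finset.subset_erase]
  tauto

theorem GS_rec (φ : Finset α → ℝ) {V : Finset α} (hV : V ≠ ∅) :
    GS φ V = φ V + (∑ x ∈ V, GS φ (V.erase x)) / (V.card : ℝ) := by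
  have hc : (0 : ℝ) < V.card := by
    rw [Nat.cast_pos, card_pos]; exact nonempty_iff_ne_empty.2 hV
  have h1 : ∑ x ∈ V, GS φ (V.erase x) =
      ∑ X ∈ V.powerset, ∑ x ∈ V \ X, φ X / ((V.card - 1).choose X.card : ℝ) := by
    rw [sum_pairs']
    unfold GS
    refine Finset.sum_congr rfl fun x hx => ?_
    rw [Finset.card_erase_of_mem hx]
  rw [h1]
  unfold GS
  rw [← add_sum_erase _ _ (mem_powerset_self V), Nat.choose_self, Nat.cast_one, div_one,
    ← add_sum_erase _ (fun X => ∑ x ∈ V \ X, φ X / ((V.card - 1).choose X.card : ℝ))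
      (mem_powerset_self V)]
  simp only [sdiff_self, bot_eq_empty, sum_empty, zero_add]
  congr 1
  rw [sum_div]
  refine sum_congr rfl fun X hX => ?_
  rw [mem_erase, mem_powerset] at hX
  have hlt : X.card < V.card := card_lt_card (ssubset_of_subset_of_ne hX.2 hX.1)
  rw [sum_const, nsmul_eq_mul, card_sdiff_cast hX.2]
  have hp := choose_pos_real hlt.le
  have hp2 : (0 : ℝ) < ((V.card - 1).choose X.card : ℝ) := choose_pos_real (by omega)
  have hid : (V.card.choose X.card : ℝ) * ((V.card : ℝ) - X.card) =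
      (V.card : ℝ) * ((V.card - 1).choose X.card : ℝ) := by
    obtain ⟨n, hn⟩ : ∃ n, V.card = n + 1 := ⟨V.card - 1, by omega⟩
    rw [hn] at hlt ⊢
    have h3 : (((n + 1) - X.card : ℕ) : ℝ) = ((n + 1 : ℕ) : ℝ) - X.card := Nat.cast_sub hlt.le
    rw [← h3, Nat.add_sub_cancel]
    have h4 : (n + 1).choose X.card * (n + 1 - X.card) = (n + 1) * n.choose X.card := by
      rw [← Nat.choose_mul_succ_eq, mul_comm]
    exact_mod_cast h4
  rw [div_eq_div_iff hp.ne' hc.ne']
  have : ((V.card : ℝ) - X.card) * (φ X / ((V.card - 1).choose X.card : ℝ)) *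
      (V.card.choose X.card : ℝ) = φ X * ((V.card.choose X.card : ℝ) *
        ((V.card : ℝ) - X.card)) / ((V.card - 1).choose X.card : ℝ) := by ring
  rw [this, hid]
  field_simp

theorem GS_first (φ : Finset α → ℝ) (ψ : α → Finset α → ℝ) (V : Finset α)
    (h : ∀ U ⊆ V, U ≠ ∅ → φ U = (∑ x ∈ U, ψ x (U.erase x)) / (U.card : ℝ)) :
    GS φ V = φ ∅ + (∑ x ∈ V, GS (ψ x) (V.erase x)) / (V.card : ℝ) := by
  have h1 : ∑ x ∈ V, GS (ψ x) (V.erase x) =
      ∑ U ∈ V.powerset, ∑ x ∈ U, ψ x (U.erase x) /
        ((V.card - 1).choose (U.erase x).card : ℝ) := by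
    rw [← sum_up_down V (fun Z x => ψ x Z / ((V.card - 1).choose Z.card : ℝ)), sum_pairs']
    unfold GS
    refine Finset.sum_congr rfl fun x hx => ?_
    rw [Finset.card_erase_of_mem hx]
  rw [h1]
  unfold GS
  rw [← add_sum_erase _ _ (empty_mem_powerset V),
    ← add_sum_erase _ (fun U => ∑ x ∈ U, ψ x (U.erase x) /
        ((V.card - 1).choose (U.erase x).card : ℝ)) (empty_mem_powerset V)]
  simp only [card_empty, Nat.choose_zero_right, Nat.cast_one, div_one, sum_empty, zero_add]
  congr 1
  rw [sum_div]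
  refine sum_congr rfl fun U hU => ?_
  rw [mem_erase, mem_powerset] at hU
  have hUne : U.Nonempty := nonempty_iff_ne_empty.2 hU.1
  rw [h U hU.2 hU.1]
  obtain ⟨k, hk⟩ : ∃ k, U.card = k + 1 := ⟨U.card - 1, by have := hUne.card_pos; omega⟩
  have hle := card_le_card hU.2
  obtain ⟨m, hm⟩ : ∃ m, V.card = m + 1 := ⟨V.card - 1, by omega⟩
  have e1 : ∑ x ∈ U, ψ x (U.erase x) / ((V.card - 1).choose (U.erase x).card : ℝ) =
      (∑ x ∈ U, ψ x (U.erase x)) / (m.choose k : ℝ) := by
    rw [sum_div]
    refine sum_congr rfl fun x hx => ?_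
    rw [card_erase_of_mem hx, hk, hm]
    rfl
  rw [e1, hk, hm]
  have h3 : ((m : ℝ) + 1) * (m.choose k : ℝ) = ((m + 1).choose (k + 1) : ℝ) * ((k : ℝ) + 1) := by
    have := Nat.add_one_mul_choose_eq m k
    exact_mod_cast this
  have h4 : (0 : ℝ) < (m.choose k : ℝ) := by exact_mod_cast Nat.choose_pos (by omega)
  have h5 : (0 : ℝ) < ((m + 1).choose (k + 1) : ℝ) := by
    exact_mod_cast Nat.choose_pos (by omega)
  rw [div_div, div_div]
  push_cast
  rw [show ((m.choose k : ℝ)) * ((m : ℝ) + 1) = ((m : ℝ) + 1) * (m.choose k : ℝ) by ring, h3]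
  congr 1
  ring

/-! ### The function `A1` -/

/-- The summand of `A1`. -/
noncomputable def ph (τ : Finset α → Lab) (π : Finset α → ℝ) (U : Finset α) : ℝ :=
  match τ U with
    | .A => fw τ U
    | .X => fwb τ U * π U
    | .B => 0

theorem A1_eq (τ : Finset α → Lab) (π : Finset α → ℝ) (V : Finset α) :
    A1 τ π V = GS (ph τ π) V := rfl

theorem ph_A {τ : Finset α → Lab} (π : Finset α → ℝ) {U : Finset α} (h : τ U = Lab.A) :
    ph τ π U = fw τ U := by unfold ph; rw [h]

theorem ph_X {τ : Finset α → Lab} (π : Finset α → ℝ) {U : Finset α} (h : τ U = Lab.X) :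
    ph τ π U = fwb τ U * π U := by unfold ph; rw [h]

theorem ph_B {τ : Finset α → Lab} (π : Finset α → ℝ) {U : Finset α} (h : τ U = Lab.B) :
    ph τ π U = 0 := by unfold ph; rw [h]

theorem A1_rec (τ : Finset α → Lab) (π : Finset α → ℝ) {V : Finset α} (hV : V ≠ ∅) :
    A1 τ π V = ph τ π V + (∑ x ∈ V, A1 τ π (V.erase x)) / (V.card : ℝ) := GS_rec _ hV

theorem A1_empty {τ : Finset α → Lab} (π : Finset α → ℝ) (h : τ ∅ = Lab.A) :
    A1 τ π ∅ = 1 := by
  rw [A1_eq, GS_empty, ph_A π h, fw_empty, if_pos h]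

theorem fw_zero_of_bot {σ : Finset α → Lab} (h0 : σ ∅ ≠ Lab.A) (U : Finset α) : fw σ U = 0 := by
  induction U using Finset.strongInduction with
  | H U ih =>
  by_cases hU : U = ∅
  · subst hU; rw [fw_empty, if_neg h0]
  · rw [fw_rec hU]
    split_ifs
    · unfold fwb
      rw [Finset.sum_congr rfl fun x hx => ih _ (Finset.erase_ssubset hx)]
      simp
    · rfl

theorem fwb_zero_of_bot {σ : Finset α → Lab} (h0 : σ ∅ ≠ Lab.A) (U : Finset α) :
    fwb σ U = 0 := by
  unfold fwb
  rw [Finset.sum_congr rfl fun x _ => fw_zero_of_bot h0 (U.erase x)]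
  simp

theorem A1_zero_of_bot {σ : Finset α → Lab} (π : Finset α → ℝ) (h0 : σ ∅ ≠ Lab.A)
    (U : Finset α) : A1 σ π U = 0 := by
  rw [A1_eq]
  unfold GS
  refine Finset.sum_eq_zero fun V _ => ?_
  have : ph σ π V = 0 := by
    unfold ph
    rcases σ V with _ | _ | _
    · exact fw_zero_of_bot h0 V
    · rfl
    · simp only; rw [fwb_zero_of_bot h0 V, zero_mul]
  rw [this, zero_div]

/-- First-step decomposition of `A1`. -/
theorem A1_first {σ : Finset α → Lab} (π : Finset α → ℝ) (h0 : σ ∅ = Lab.A) (V : Finset α) :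
    A1 σ π V = 1 + (∑ x ∈ V, (if σ {x} = Lab.X then π {x} else
      A1 (up σ x) (fun Z => π (insert x Z)) (V.erase x))) / (V.card : ℝ) := by
  rw [A1_eq]
  have key := GS_first (ph σ π) (fun x Z => if σ {x} = Lab.X then (if Z = ∅ then π {x} else 0)
    else ph (up σ x) (fun Z => π (insert x Z)) Z) V (by
    intro U _ hU
    have hne : U.Nonempty := Finset.nonempty_iff_ne_empty.2 hU
    have hm : (0 : ℝ) < (U.card : ℝ) := by exact_mod_cast hne.card_pos
    by_cases h1 : U.card = 1
    · obtain ⟨x, rfl⟩ := Finset.card_eq_one.1 h1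
      have e1 : ({x} : Finset α).erase x = ∅ := by simp
      simp only [Finset.sum_singleton, e1, if_true, Finset.card_singleton, Nat.cast_one, div_one]
      cases hx : σ {x} with
      | A =>
        have hx' : up σ x ∅ = Lab.A := by simpa [up] using hx
        rw [ph_A π hx, ph_A _ hx', fw_rec hU, if_pos hx, fw_empty, if_pos hx']
        unfold fwb
        simp [e1, fw_empty, h0]
      | X =>
        rw [ph_X π hx]
        unfold fwb
        simp [e1, fw_empty, h0]
      | B =>
        have hx' : up σ x ∅ = Lab.B := by simpa [up] using hx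
        rw [ph_B π hx, ph_B _ hx']
        simp
    · have h2 : 2 ≤ U.card := by have := hne.card_pos; omega
      have hne2 : ∀ y ∈ U, U.erase y ≠ ∅ := by
        intro y hy h
        have := Finset.card_erase_of_mem hy
        rw [h, Finset.card_empty] at this
        omega
      have hups : ∀ x, up σ x ∅ = σ {x} := by intro x; simp [up]
      cases hUc : σ U with
      | A =>
        rw [ph_A π hUc, fw_first h0 hU]
        congr 1
        refine Finset.sum_congr rfl fun x hx => ?_
        split_ifs with hX hE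
        · exact absurd hE (hne2 x hx)
        · apply fw_zero_of_bot
          rw [hups, hX]; decide
        · rw [ph_A]
          rw [up_erase hx]; exact hUc
      | X =>
        rw [ph_X π hUc, fwb_first h0 h2, div_mul_eq_mul_div, Finset.sum_mul]
        congr 1
        refine Finset.sum_congr rfl fun x hx => ?_
        split_ifs with hX hE
        · exact absurd hE (hne2 x hx)
        · rw [fwb_zero_of_bot, zero_mul]
          rw [hups, hX]; decide
        · rw [ph_X]
          · simp only [Finset.insert_erase hx]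
          · rw [up_erase hx]; exact hUc
      | B =>
        rw [ph_B π hUc]
        symm
        rw [div_eq_zero_iff]
        left
        refine Finset.sum_eq_zero fun x hx => ?_
        split_ifs with hX hE
        · exact absurd hE (hne2 x hx)
        · rfl
        · rw [ph_B]
          rw [up_erase hx]; exact hUc)
  rw [key, ph_A π h0, fw_empty, if_pos h0]
  congr 2
  refine Finset.sum_congr rfl fun x _ => ?_
  by_cases hX : σ {x} = Lab.X
  · simp only [hX, if_true]
    unfold GS
    rw [← add_sum_erase _ _ (empty_mem_powerset (V.erase x))]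
    simp only [if_true, card_empty, Nat.choose_zero_right, Nat.cast_one, div_one]
    rw [Finset.sum_eq_zero, add_zero]
    intro Z hZ
    rw [if_neg (Finset.mem_erase.1 hZ).1, zero_div]
  · simp only [hX, if_false]
    rfl

end R5.QP
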